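import Pool.Agent.R237.LZ.Stm

/-! Counting zeros. -/

set_option autoImplicit false

namespace Pool.Agent.R626.LZCNT

open Filter Topology

theorem exp_half {t : ℝ} (h0 : 0 ≤ t) (h1 : t ≤ 1) : Real.exp (t / 2) ≤ 1 + t := by
  have h2 : 1 - t / 2 ≤ Real.exp (-(t / 2)) := by
    have := Real.add_one_le_exp (-(t / 2))
    linarith
  have h3 : Real.exp (t / 2) * Real.exp (-(t / 2)) = 1 := by
    rw [← Real.exp_add]
    simp
  have h4 : 0 < Real.exp (t / 2) := Real.exp_pos _
  have h5 : Real.exp (t / 2) * (1 - t / 2) ≤ 1 := by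
    calc Real.exp (t / 2) * (1 - t / 2) ≤ Real.exp (t / 2) * Real.exp (-(t / 2)) :=
          mul_le_mul_of_nonneg_left h2 h4.le
      _ = 1 := h3
  have h6 : 1 ≤ (1 + t) * (1 - t / 2) := by nlinarith
  have h7 : 0 < 1 - t / 2 := by linarith
  exact le_of_mul_le_mul_right (le_trans h5 h6) h7

theorem one_le_prod (l : List ℝ) (x : ℝ) (hx : 0 ≤ x) (hl : ∀ r ∈ l, 0 ≤ r) :
    1 ≤ (l.map fun r => 1 + r * x).prod := by
  induction l with
  | nil => simp
  | cons a l ih =>
    rw [List.map_cons, List.prod_cons]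
    have h1 := ih fun r hr => hl r (List.mem_cons_of_mem _ hr)
    have h2 : 0 ≤ a * x := mul_nonneg (hl a List.mem_cons_self) hx
    nlinarith

theorem le_prod (l : List ℝ) (x : ℝ) (hx : 0 ≤ x) (hl : ∀ r ∈ l, 0 ≤ r) :
    ∀ r ∈ l, 1 + r * x ≤ (l.map fun r => 1 + r * x).prod := by
  induction l with
  | nil => simp
  | cons a l ih =>
    intro r hr
    rw [List.map_cons, List.prod_cons]
    have hl' : ∀ r ∈ l, 0 ≤ r := fun r hr => hl r (List.mem_cons_of_mem _ hr)
    have h0 := one_le_prod l x hx hl'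
    have h2 : 0 ≤ a * x := mul_nonneg (hl a List.mem_cons_self) hx
    rcases List.mem_cons.mp hr with h | h
    · subst h
      nlinarith
    · have h3 := ih hl' r h
      nlinarith

/-- number of large elements -/
noncomputable def cn (b : ℝ) (l : List ℝ) : ℕ := (l.map fun r => if b ≤ r then 1 else 0).sum

/-- sum of small elements -/
noncomputable def sg (c : ℝ) (l : List ℝ) : ℝ := (l.map fun r => if r < c then r else 0).sum

theorem two_pow (l : List ℝ) (x : ℝ) (hx : 0 < x) (hl : ∀ r ∈ l, 0 ≤ r) :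
    (2 : ℝ) ^ cn (1 / x) l ≤ (l.map fun r => 1 + r * x).prod := by
  induction l with
  | nil => simp [cn]
  | cons a l ih =>
    have hl' : ∀ r ∈ l, 0 ≤ r := fun r hr => hl r (List.mem_cons_of_mem _ hr)
    have h0 := ih hl'
    have ha : 0 ≤ a * x := mul_nonneg (hl a List.mem_cons_self) hx.le
    have h1 := one_le_prod l x hx.le hl'
    unfold cn at h0 ⊢
    simp only [List.map_cons, List.prod_cons, List.sum_cons]
    rw [pow_add]
    apply mul_le_mul _ h0 (by positivity) (by linarith)
    split_ifs with h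
    · rw [div_le_iff₀ hx] at h
      rw [pow_one]
      linarith
    · rw [pow_zero]
      linarith

theorem exp_sg (l : List ℝ) (x : ℝ) (hx : 0 < x) (hl : ∀ r ∈ l, 0 ≤ r) :
    Real.exp (sg (1 / x) l * x / 2) ≤ (l.map fun r => 1 + r * x).prod := by
  induction l with
  | nil => simp [sg]
  | cons a l ih =>
    have hl' : ∀ r ∈ l, 0 ≤ r := fun r hr => hl r (List.mem_cons_of_mem _ hr)
    have h0 := ih hl'
    have ha0 := hl a List.mem_cons_self
    have ha : 0 ≤ a * x := mul_nonneg ha0 hx.le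
    have h1 := one_le_prod l x hx.le hl'
    unfold sg at h0 ⊢
    simp only [List.map_cons, List.prod_cons, List.sum_cons]
    have e : ((if a < 1 / x then a else 0) + (l.map fun r => if r < 1 / x then r else 0).sum) * x
        / 2 = (if a < 1 / x then a else 0) * x / 2 +
        (l.map fun r => if r < 1 / x then r else 0).sum * x / 2 := by ring
    rw [e, Real.exp_add]
    apply mul_le_mul _ h0 (Real.exp_pos _).le (by linarith)
    split_ifs with h
    · rw [lt_div_iff₀ hx] at h
      exact exp_half ha h.le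
    · rw [zero_mul, zero_div, Real.exp_zero]
      linarith

theorem prod_le (l : List ℝ) (b c E M : ℝ) (hM : 0 ≤ M) (hE : 0 ≤ E)
    (hl : ∀ r ∈ l, 0 ≤ r ∧ r ≤ E ∧ (b ≤ r ∨ r < c)) :
    (l.map fun r => 1 + r * M).prod ≤ (1 + E * M) ^ cn b l * Real.exp (sg c l * M) := by
  induction l with
  | nil => simp [cn, sg]
  | cons a l ih =>
    have hl' : ∀ r ∈ l, 0 ≤ r ∧ r ≤ E ∧ (b ≤ r ∨ r < c) :=
      fun r hr => hl r (List.mem_cons_of_mem _ hr)
    have h0 := ih hl'
    obtain ⟨ha0, haE, hbc⟩ := hl a List.mem_cons_self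
    have ha : 0 ≤ a * M := mul_nonneg ha0 hM
    have h1 := one_le_prod l M hM fun r hr => (hl' r hr).1
    unfold cn sg at h0 ⊢
    simp only [List.map_cons, List.prod_cons, List.sum_cons]
    have e : ((if a < c then a else 0) + (l.map fun r => if r < c then r else 0).sum) * M =
        (if a < c then a else 0) * M + (l.map fun r => if r < c then r else 0).sum * M := by ring
    rw [e, Real.exp_add, pow_add]
    have key : 1 + a * M ≤ (1 + E * M) ^ (if b ≤ a then 1 else 0) *
        Real.exp ((if a < c then a else 0) * M) := by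
      have hEM : 0 ≤ E * M := mul_nonneg hE hM
      have haM : a * M ≤ E * M := mul_le_mul_of_nonneg_right haE hM
      have h5 : 1 ≤ Real.exp ((if a < c then a else 0) * M) := by
        apply Real.one_le_exp
        split_ifs
        · exact ha
        · simp
      by_cases h : b ≤ a
      · rw [if_pos h, pow_one]
        nlinarith
      · rcases hbc with h6 | h6
        · exact absurd h6 h
        · rw [if_neg h, pow_zero, if_pos h6, one_mul]
          have := Real.add_one_le_exp (a * M)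
          linarith
    calc (1 + a * M) * (l.map fun r => 1 + r * M).prod
        ≤ ((1 + E * M) ^ (if b ≤ a then 1 else 0) * Real.exp ((if a < c then a else 0) * M)) *
          ((1 + E * M) ^ (l.map fun r => if b ≤ r then 1 else 0).sum *
            Real.exp ((l.map fun r => if r < c then r else 0).sum * M)) :=
          mul_le_mul key h0 (by linarith) (le_trans (by linarith) key)
      _ = _ := by ring

theorem t_CNT : Pool.Agent.R237.LZ.S_CNT := by
  intro R K θ X0 hK hθ0 hθ1 hX0 hR hub hnz hlb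
  have hX0p : 0 < X0 := by linarith
  obtain ⟨N, hN⟩ := pow_unbounded_of_one_lt (Real.exp (K * X0 ^ θ)) (by norm_num : (1 : ℝ) < 2)
  have hcn : ∀ n, cn (1 / X0) (R n) ≤ N := by
    intro n
    have h1 := two_pow (R n) X0 hX0p (hR n)
    have h2 := hub n X0 hX0p.le
    have h3 : (2 : ℝ) ^ cn (1 / X0) (R n) < 2 ^ N := by linarith
    exact ((pow_lt_pow_iff_right₀ (by norm_num : (1 : ℝ) < 2)).mp h3).le
  have hrE : ∀ n, ∀ r ∈ R n, r ≤ Real.exp K := by
    intro n r hr
    have h1 := le_prod (R n) 1 zero_le_one (hR n) r hr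
    have h2 := hub n 1 zero_le_one
    rw [Real.one_rpow, mul_one] at h2
    rw [mul_one] at h1
    linarith
  obtain ⟨M, hM1, n1, hn1⟩ := hlb N (Real.exp 1 * Real.exp K ^ N)
  have hM0 : 0 ≤ M := by linarith
  -- choose `X1`
  have htend : Tendsto (fun x : ℝ => 2 * K * M * x ^ (-(1 - θ))) atTop (𝓝 (2 * K * M * 0)) :=
    (tendsto_rpow_neg_atTop (by linarith : 0 < 1 - θ)).const_mul _
  rw [mul_zero] at htend
  have hev : ∀ᶠ x : ℝ in atTop, 2 * K * M * x ^ (-(1 - θ)) < 1 :=
    htend.eventually_lt_const zero_lt_one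
  obtain ⟨X1, hX1, hX1'⟩ := (hev.and (eventually_ge_atTop X0)).exists
  obtain ⟨n0, hn0⟩ := hnz X1 hX1'
  have hX1p : 0 < X1 := by linarith
  set n := max n0 n1 with hn
  have hA := hn1 n (le_max_right _ _)
  have hB := hn0 n (le_max_left _ _)
  have hgap : ∀ r ∈ R n, 1 / X0 ≤ r ∨ r < 1 / X1 := by
    intro r hr
    by_contra hc
    push Not at hc
    obtain ⟨h1, h2⟩ := hc
    have hr0 : 0 < r := lt_of_lt_of_le (by positivity) h2
    have h3 : X0 ≤ 1 / r := by
      rw [le_div_iff₀ hr0]
      rw [lt_div_iff₀ hX0p] at h1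
      linarith
    have h4 : 1 / r ≤ X1 := by
      rw [div_le_iff₀ hr0]
      rw [div_le_iff₀ hX1p] at h2
      linarith
    apply hB (1 / r) h3 h4
    rw [List.prod_eq_zero_iff, List.mem_map]
    refine ⟨r, hr, ?_⟩
    field_simp
    ring
  have h1 := prod_le (R n) (1 / X0) (1 / X1) (Real.exp K) M hM0 (Real.exp_pos _).le
    fun r hr => ⟨hR n r hr, hrE n r hr, hgap r hr⟩
  have hsg : sg (1 / X1) (R n) * M ≤ 1 := by
    have h2 := exp_sg (R n) X1 hX1p (hR n)
    have h3 := hub n X1 hX1p.le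
    have h4 := Real.exp_le_exp.mp (le_trans h2 h3)
    have h5 : X1 ^ θ = X1 ^ (-(1 - θ)) * X1 := by
      rw [show θ = -(1 - θ) + 1 by ring, Real.rpow_add hX1p, Real.rpow_one]
      ring_nf
    rw [h5] at h4
    have h6 : sg (1 / X1) (R n) ≤ 2 * K * X1 ^ (-(1 - θ)) := by
      have : sg (1 / X1) (R n) * X1 ≤ (2 * K * X1 ^ (-(1 - θ))) * X1 := by linarith
      exact le_of_mul_le_mul_right this hX1p
    have h7 : sg (1 / X1) (R n) * M ≤ 2 * K * X1 ^ (-(1 - θ)) * M :=
      mul_le_mul_of_nonneg_right h6 hM0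
    linarith
  have hE1 : 1 ≤ Real.exp K := Real.one_le_exp hK
  have h8 : (1 + Real.exp K * M) ^ cn (1 / X0) (R n) ≤ (Real.exp K * (1 + M)) ^ N := by
    calc (1 + Real.exp K * M) ^ cn (1 / X0) (R n) ≤ (1 + Real.exp K * M) ^ N :=
          pow_le_pow_right₀ (by nlinarith) (hcn n)
      _ ≤ (Real.exp K * (1 + M)) ^ N := by
          apply pow_le_pow_left₀ (by positivity)
          linarith
  have h9 : Real.exp (sg (1 / X1) (R n) * M) ≤ Real.exp 1 := Real.exp_le_exp.mpr hsg
  have h10 : (1 + Real.exp K * M) ^ cn (1 / X0) (R n) * Real.exp (sg (1 / X1) (R n) * M) ≤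
      (Real.exp K * (1 + M)) ^ N * Real.exp 1 :=
    mul_le_mul h8 h9 (Real.exp_pos _).le (by positivity)
  rw [mul_pow] at h10
  linarith

end Pool.Agent.R626.LZCNT
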